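import Pool.Agent.H35_GD.Side

/-! The uniform dichotomy: for every large `N` either some `2 n` near `2 N` is the sum of two distinct
primes in many ways, or some element of `2 (X + Y)` is a gap between consecutive primes up to `2 N` many
times.  The non-consecutive form of the second alternative was prepared by helper880 (`TH880.GP`). -/

set_option autoImplicit false

namespace Pool.Agent.H35_GD

open Finset Filter Topology
open Pool.Agent.W25.UN (Fm uB wB)
open Pool.Agent.H410R2 (WW)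
open Pool.Agent.W25.UB
open Pool.Agent.TH880
open Pool.Agent.TH880.GP (clas shf slope_pm clas_fib shf_ne large_prime one_class exists_u)

theorem shf_cases {K : ℕ} (x y : Fin K → ℤ) (s t : ℤ) (i : Fin (4 * K)) :
    (clas i = 0 ∧ GP.slope i = 1 ∧ ∃ k, shf x y s t i = s + 2 * x k) ∨
    (clas i = 1 ∧ GP.slope i = 1 ∧ ∃ k, shf x y s t i = s + -2 * y k) ∨
    (clas i = 2 ∧ GP.slope i = -1 ∧ ∃ k, shf x y s t i = t + 2 * x k) ∨
    (clas i = 3 ∧ GP.slope i = -1 ∧ ∃ k, shf x y s t i = t + -2 * y k) := by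
  unfold shf GP.slope clas
  generalize (finProdFinEquiv.symm i).2 = k
  generalize (finProdFinEquiv.symm i).1 = g
  fin_cases g
  · left
    refine ⟨rfl, by simp, k, ?_⟩
    simp
    ring
  · right; left
    refine ⟨rfl, by simp, k, ?_⟩
    simp
    ring
  · right; right; left
    refine ⟨rfl, by simp, k, ?_⟩
    simp
    ring
  · right; right; right
    refine ⟨rfl, by simp, k, ?_⟩
    simp
    ring

/-- half of a shift -/
theorem shf_half {K : ℕ} (x y : Fin K → ℤ) (s t : ℤ) (R : ℕ) (hR : ∀ i, |2 * x i| ≤ R)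
    (hR' : ∀ j, |2 * y j| ≤ R) (i : Fin (4 * K)) :
    ∃ z : ℤ, |2 * z| ≤ R ∧ ((∃ k, 2 * z = 2 * x k) ∨ (∃ k, 2 * z = -2 * y k)) ∧
      ((GP.slope i = 1 ∧ shf x y s t i = s + 2 * z) ∨ (GP.slope i = -1 ∧ shf x y s t i = t + 2 * z)) := by
  have hneg : ∀ k, |2 * -y k| ≤ (R : ℤ) := by
    intro k
    have h1 : 2 * -y k = -(2 * y k) := by ring
    rw [h1, abs_neg]
    exact hR' k
  rcases shf_cases x y s t i with ⟨-, h1, k, h2⟩ | ⟨-, h1, k, h2⟩ | ⟨-, h1, k, h2⟩ | ⟨-, h1, k, h2⟩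
  · exact ⟨x k, hR k, Or.inl ⟨k, rfl⟩, Or.inl ⟨h1, h2⟩⟩
  · exact ⟨-y k, hneg k, Or.inr ⟨k, by ring⟩, Or.inl ⟨h1, by rw [h2]; ring⟩⟩
  · exact ⟨x k, hR k, Or.inl ⟨k, rfl⟩, Or.inr ⟨h1, h2⟩⟩
  · exact ⟨-y k, hneg k, Or.inr ⟨k, by ring⟩, Or.inr ⟨h1, by rw [h2]; ring⟩⟩

open Classical in
/-- one large `N` -/
theorem at_N {K : ℕ} (x y : Fin K → ℤ) (hxy : ∀ i j, 0 < x i + y j) (R M : ℕ) (w : ℤ) (hM : 0 < M)
    (hR : ∀ i, |2 * x i| ≤ R) (hR' : ∀ j, |2 * y j| ≤ R)
    (hMB : ∀ p : ℕ, p.Prime → p ≤ 4 * K + 1 → p ∣ M)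
    (hMx : ∀ p : ℕ, p.Prime → p ∣ M → ∀ i, ¬ (p : ℤ) ∣ w + 2 * x i)
    (hMy : ∀ p : ℕ, p.Prime → p ∣ M → ∀ j, ¬ (p : ℤ) ∣ w + -2 * y j)
    (hMT : ∀ t : ℤ, |t| ≤ R → (∀ i, t ≠ 2 * x i) → (∀ j, t ≠ -2 * y j) →
      ∃ p : ℕ, p.Prime ∧ p ∣ M ∧ (p : ℤ) ∣ w + t)
    (D : ℕ) (hD : M ≤ D) (N ρ : ℕ) (hρ : ρ < M) (hNρ : (M : ℤ) ∣ (N : ℤ) - ρ)
    (hN : 64 * (w.natAbs + M + R + 1) ≤ N) (η : ℝ)
    (hT : (((4 * K) * (4 * K) + (K * K + K * K) : ℕ) : ℝ) < (N : ℝ) ^ (η / 2))
    (hmain : ∀ v : ℕ, CopAt (GP.slope (K := K)) (shf x y (w - 1 - ρ) (w + 1 - ρ)) D N v →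
      (N : ℝ) ^ (1 - η / 2) ≤ (((Icc 1 N).filter (fun n : ℕ => n ≡ v [MOD (WW D)] ∧
        (N : ℝ) / 16 ≤ n ∧ (n : ℝ) ≤ N / 2 ∧
        2 ≤ (univ.filter (fun g : Fin 4 => ∃ i, clas i = g ∧
          (Fm GP.slope (shf x y (w - 1 - ρ) (w + 1 - ρ)) N i n).toNat.Prime)).card)).card : ℝ)) :
    Near (w.natAbs + M + R) η N ∨ ∃ i j, (N : ℝ) ^ (1 - η) ≤ gaps (x i + y j) (2 * N) := by
  obtain ⟨s, hs⟩ : ∃ s : ℤ, s = w - 1 - ρ := ⟨_, rfl⟩
  obtain ⟨t, ht⟩ : ∃ t : ℤ, t = w + 1 - ρ := ⟨_, rfl⟩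
  rw [← hs, ← ht] at hmain
  have hw := Int.natCast_natAbs w
  have hwa := neg_abs_le w
  have hwb := le_abs_self w
  rw [← hw] at hwa hwb
  -- the class
  obtain ⟨v, hv, hv1⟩ := exists_v (GP.slope (K := K)) (shf x y s t) D N M (by
    intro p hp hpD
    by_cases hpM : p ∣ M
    · refine ⟨1, fun _ => rfl, ?_⟩
      have hpN : (p : ℤ) ∣ (N : ℤ) - ρ := (Int.natCast_dvd_natCast.2 hpM).trans hNρ
      intro j hj
      cases j with
      | none =>
        have h1 : (p : ℤ) ∣ 1 := by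
          simpa [uB, wB] using hj
        have h2 : p ∣ 1 := by exact_mod_cast h1
        exact hp.one_lt.ne' (Nat.dvd_one.1 h2)
      | some i =>
        have hj' : (p : ℤ) ∣ GP.slope i * 1 + (N + shf x y s t i) := by
          simpa [uB, wB] using hj
        obtain ⟨z, -, hz, h1⟩ := shf_half x y s t R hR hR' i
        have h2 : (p : ℤ) ∣ w + 2 * z := by
          have h3 := dvd_sub hj' hpN
          have e : GP.slope i * 1 + ((N : ℤ) + shf x y s t i) - ((N : ℤ) - ρ) = w + 2 * z := by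
            rcases h1 with ⟨h1, h2⟩ | ⟨h1, h2⟩
            · rw [h1, h2, hs]; ring
            · rw [h1, h2, ht]; ring
          rwa [e] at h3
        rcases hz with ⟨k, hk⟩ | ⟨k, hk⟩
        · rw [hk] at h2
          exact hMx p hp hpM k h2
        · rw [hk] at h2
          exact hMy p hp hpM k h2
    · obtain ⟨r, hr⟩ := large_prime (GP.slope (K := K)) (shf x y s t) slope_pm N p hp (by
        by_contra hcon
        exact hpM (hMB p hp (by omega)))
      exact ⟨r, fun h => absurd h hpM, hr⟩)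
  have hbig := hmain v hv
  obtain ⟨S, hS⟩ : ∃ S : Finset ℕ, S = (Icc 1 N).filter (fun n : ℕ => n ≡ v [MOD (WW D)] ∧
        (N : ℝ) / 16 ≤ n ∧ (n : ℝ) ≤ N / 2 ∧
        2 ≤ (univ.filter (fun g : Fin 4 => ∃ i, clas i = g ∧
          (Fm GP.slope (shf x y s t) N i n).toNat.Prime)).card) := ⟨_, rfl⟩
  rw [← hS] at hbig
  have hmem : ∀ n ∈ S, (∀ p : ℕ, p.Prime → p ∣ M → (p : ℤ) ∣ (n : ℤ) - 1) ∧ N ≤ 16 * n ∧ 2 * n ≤ N ∧
      2 ≤ (univ.filter (fun g : Fin 4 => ∃ i, clas i = g ∧
          (Fm GP.slope (shf x y s t) N i n).toNat.Prime)).card := by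
    intro n hn
    rw [hS, mem_filter] at hn
    obtain ⟨-, h1, h2, h3, h4⟩ := hn
    refine ⟨fun p hp hpM => hv1 n h1 p hp ((Nat.le_of_dvd hM hpM).trans hD) hpM, ?_, ?_, h4⟩
    · have : (N : ℝ) ≤ 16 * n := by linarith
      exact_mod_cast this
    · have : 2 * (n : ℝ) ≤ N := by linarith
      exact_mod_cast this
  -- the values of the forms
  have hF : ∀ (i : Fin (4 * K)) (n : ℕ), Fm GP.slope (shf x y s t) N i n =
      (N : ℤ) + GP.slope i * n + shf x y s t i := fun i n => rfl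
  have hρz : (ρ : ℤ) < M := by exact_mod_cast hρ
  have hρ0 : (0 : ℤ) ≤ ρ := Nat.cast_nonneg _
  -- the three kinds
  obtain ⟨S1, hS1⟩ : ∃ S1 : Fin (4 * K) × Fin (4 * K) → Finset ℕ, S1 = fun (z : Fin (4 * K) × Fin (4 * K)) => S.filter (fun n : ℕ =>
    GP.slope z.1 = 1 ∧ GP.slope z.2 = -1 ∧ (Fm GP.slope (shf x y s t) N z.1 n).toNat.Prime ∧
      (Fm GP.slope (shf x y s t) N z.2 n).toNat.Prime) := ⟨_, rfl⟩
  obtain ⟨S2, hS2⟩ : ∃ S2 : Fin K × Fin K → Finset ℕ, S2 = fun (z : Fin K × Fin K) => S.filter (fun n : ℕ =>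
    ∃ m : ℕ, (Nat.nth Nat.Prime m : ℤ) = (N + n + s) - 2 * y z.2 ∧
      (Nat.nth Nat.Prime (m + 1) : ℤ) = (N + n + s) + 2 * x z.1) := ⟨_, rfl⟩
  obtain ⟨S3, hS3⟩ : ∃ S3 : Fin K × Fin K → Finset ℕ, S3 = fun (z : Fin K × Fin K) => S.filter (fun n : ℕ =>
    ∃ m : ℕ, (Nat.nth Nat.Prime m : ℤ) = (N - n + t) - 2 * y z.2 ∧
      (Nat.nth Nat.Prime (m + 1) : ℤ) = (N - n + t) + 2 * x z.1) := ⟨_, rfl⟩
  have hcov : S ⊆ (univ.biUnion S1) ∪ ((univ.biUnion S2) ∪ (univ.biUnion S3)) := by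
    intro n hn
    obtain ⟨hp1, hn16, hn2, h2⟩ := hmem n hn
    obtain ⟨g, hg, g', hg', hne⟩ := Finset.one_lt_card.1 h2
    obtain ⟨-, i, hi, hpi⟩ := mem_filter.1 hg
    obtain ⟨-, j, hj, hpj⟩ := mem_filter.1 hg'
    have key : ∀ i j : Fin (4 * K), clas i < clas j → (Fm GP.slope (shf x y s t) N i n).toNat.Prime →
        (Fm GP.slope (shf x y s t) N j n).toNat.Prime →
        n ∈ (univ.biUnion S1) ∪ ((univ.biUnion S2) ∪ (univ.biUnion S3)) := by
      intro i j hlt hpi hpj
      rcases slope_pm i with hsi | hsi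
      · rcases slope_pm j with hsj | hsj
        · -- the right side
          apply mem_union_right
          apply mem_union_left
          obtain ⟨k, hk⟩ : ∃ k, shf x y s t i = s + 2 * x k := by
            rcases shf_cases x y s t i with ⟨-, -, h⟩ | ⟨h1, h2, h⟩ | ⟨h1, h2, h⟩ | ⟨h1, h2, h⟩
            · exact h
            · rcases shf_cases x y s t j with ⟨h3, h4, -⟩ | ⟨h3, h4, -⟩ | ⟨h3, h4, -⟩ | ⟨h3, h4, -⟩
              · rw [h1, h3] at hlt; exact absurd hlt (by decide)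
              · rw [h1, h3] at hlt; exact absurd hlt (by decide)
              · rw [h4] at hsj; norm_num at hsj
              · rw [h4] at hsj; norm_num at hsj
            · rw [h2] at hsi; norm_num at hsi
            · rw [h2] at hsi; norm_num at hsi
          obtain ⟨l, hl⟩ : ∃ l, shf x y s t j = s + -2 * y l := by
            rcases shf_cases x y s t j with ⟨h1, h2, h⟩ | ⟨-, -, h⟩ | ⟨h1, h2, h⟩ | ⟨h1, h2, h⟩
            · rw [h1] at hlt; exact absurd hlt (by simp)
            · exact h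
            · rw [h2] at hsj; norm_num at hsj
            · rw [h2] at hsj; norm_num at hsj
          obtain ⟨i', j', hm⟩ := side x y hxy (N + n + s) M R hR hR' hM (by
              rw [hs]; omega) (by
              intro t₀ h1 h2 h3
              obtain ⟨p, hp, hpM, hpt⟩ := hMT t₀ h1 h2 h3
              refine ⟨p, hp, hpM, ?_⟩
              have h4 : (p : ℤ) ∣ (N : ℤ) - ρ := (Int.natCast_dvd_natCast.2 hpM).trans hNρ
              have h5 := dvd_add (dvd_add h4 (hp1 p hp hpM)) hpt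
              have e : (N : ℤ) - ρ + ((n : ℤ) - 1) + (w + t₀) = N + n + s + t₀ := by rw [hs]; ring
              rwa [e] at h5)
            ⟨k, by
              have e : (N : ℤ) + n + s + 2 * x k = Fm GP.slope (shf x y s t) N i n := by
                rw [hF, hsi, hk]; ring
              rw [e]; exact hpi⟩
            ⟨l, by
              have e : (N : ℤ) + n + s + -2 * y l = Fm GP.slope (shf x y s t) N j n := by
                rw [hF, hsj, hl]; ring
              rw [e]; exact hpj⟩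
          rw [mem_biUnion]
          refine ⟨(i', j'), mem_univ _, ?_⟩
          rw [hS2, mem_filter]
          exact ⟨hn, hm⟩
        · apply mem_union_left
          rw [mem_biUnion]
          refine ⟨(i, j), mem_univ _, ?_⟩
          rw [hS1, mem_filter]
          exact ⟨hn, hsi, hsj, hpi, hpj⟩
      · rcases slope_pm j with hsj | hsj
        · apply mem_union_left
          rw [mem_biUnion]
          refine ⟨(j, i), mem_univ _, ?_⟩
          rw [hS1, mem_filter]
          exact ⟨hn, hsj, hsi, hpj, hpi⟩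
        · -- the left side
          apply mem_union_right
          apply mem_union_right
          obtain ⟨k, hk⟩ : ∃ k, shf x y s t i = t + 2 * x k := by
            rcases shf_cases x y s t i with ⟨h1, h2, h⟩ | ⟨h1, h2, h⟩ | ⟨h1, h2, h⟩ | ⟨h1, h2, h⟩
            · rw [h2] at hsi; norm_num at hsi
            · rw [h2] at hsi; norm_num at hsi
            · exact h
            · rcases shf_cases x y s t j with ⟨h3, h4, -⟩ | ⟨h3, h4, -⟩ | ⟨h3, h4, -⟩ | ⟨h3, h4, -⟩
              · rw [h4] at hsj; norm_num at hsj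
              · rw [h4] at hsj; norm_num at hsj
              · rw [h1, h3] at hlt; exact absurd hlt (by decide)
              · rw [h1, h3] at hlt; exact absurd hlt (by decide)
          obtain ⟨l, hl⟩ : ∃ l, shf x y s t j = t + -2 * y l := by
            rcases shf_cases x y s t j with ⟨h1, h2, h⟩ | ⟨h1, h2, h⟩ | ⟨h1, h2, h⟩ | ⟨h1, h2, h⟩
            · rw [h2] at hsj; norm_num at hsj
            · rw [h2] at hsj; norm_num at hsj
            · rcases shf_cases x y s t i with ⟨h3, h4, -⟩ | ⟨h3, h4, -⟩ | ⟨h3, h4, -⟩ | ⟨h3, h4, -⟩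
              · rw [h4] at hsi; norm_num at hsi
              · rw [h4] at hsi; norm_num at hsi
              · rw [h1, h3] at hlt; exact absurd hlt (by decide)
              · rw [h1, h3] at hlt; exact absurd hlt (by decide)
            · exact h
          obtain ⟨i', j', hm⟩ := side x y hxy (N - n + t) M R hR hR' hM (by
              rw [ht]; omega) (by
              intro t₀ h1 h2 h3
              obtain ⟨p, hp, hpM, hpt⟩ := hMT t₀ h1 h2 h3
              refine ⟨p, hp, hpM, ?_⟩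
              have h4 : (p : ℤ) ∣ (N : ℤ) - ρ := (Int.natCast_dvd_natCast.2 hpM).trans hNρ
              have h5 := dvd_add (dvd_sub h4 (hp1 p hp hpM)) hpt
              have e : (N : ℤ) - ρ - ((n : ℤ) - 1) + (w + t₀) = N - n + t + t₀ := by rw [ht]; ring
              rwa [e] at h5)
            ⟨k, by
              have e : (N : ℤ) - n + t + 2 * x k = Fm GP.slope (shf x y s t) N i n := by
                rw [hF, hsi, hk]; ring
              rw [e]; exact hpi⟩
            ⟨l, by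
              have e : (N : ℤ) - n + t + -2 * y l = Fm GP.slope (shf x y s t) N j n := by
                rw [hF, hsj, hl]; ring
              rw [e]; exact hpj⟩
          rw [mem_biUnion]
          refine ⟨(i', j'), mem_univ _, ?_⟩
          rw [hS3, mem_filter]
          exact ⟨hn, hm⟩
    rcases lt_or_gt_of_ne hne with h | h
    · exact key i j (by rw [hi, hj]; exact h) hpi hpj
    · exact key j i (by rw [hi, hj]; exact h) hpj hpi
  by_contra hcon
  push Not at hcon
  obtain ⟨hno1, hno2⟩ := hcon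
  obtain ⟨A, hA⟩ : ∃ A : ℝ, A = (N : ℝ) ^ (1 - η) := ⟨_, rfl⟩
  rw [← hA] at hno2
  have hN0 : (0 : ℝ) < N := by
    have : 0 < N := by omega
    exact_mod_cast this
  have hA0 : 0 < A := by rw [hA]; exact Real.rpow_pos_of_pos hN0 _
  have hc1 : ∀ z, ((S1 z).card : ℝ) ≤ A := by
    rintro ⟨i, j⟩
    by_contra hlt
    push Not at hlt
    by_cases hsl : GP.slope i = 1 ∧ GP.slope j = -1
    swap
    · have h0 : S1 (i, j) = ∅ := by
        rw [hS1]
        apply filter_eq_empty_iff.2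
        rintro n - ⟨h1, h2, -⟩
        exact hsl ⟨h1, h2⟩
      rw [h0, card_empty, Nat.cast_zero] at hlt
      linarith
    obtain ⟨hsi, hsj⟩ := hsl
    apply hno1
    obtain ⟨z, hz1, -, hz⟩ := shf_half x y s t R hR hR' i
    obtain ⟨z', hz1', -, hz'⟩ := shf_half x y s t R hR hR' j
    have hi : shf x y s t i = s + 2 * z := by
      rcases hz with h | h
      · exact h.2
      · rw [h.1] at hsi; norm_num at hsi
    have hj : shf x y s t j = t + 2 * z' := by
      rcases hz' with h | h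
      · rw [h.1] at hsj; norm_num at hsj
      · exact h.2
    rw [abs_le] at hz1 hz1'
    obtain ⟨n', hn'⟩ : ∃ n' : ℕ, (n' : ℤ) = N + (w - ρ + z + z') := by
      refine ⟨((N : ℤ) + (w - ρ + z + z')).toNat, Int.toNat_of_nonneg ?_⟩
      omega
    refine ⟨n', ?_, ?_⟩
    · rw [hn', abs_le]
      push_cast
      constructor <;> omega
    · rw [← hA]
      refine hlt.le.trans ?_
      rw [Nat.cast_le]
      refine reps_of _ (fun n : ℕ => Fm GP.slope (shf x y s t) N i n)
        (fun n : ℕ => Fm GP.slope (shf x y s t) N j n) ?_ ?_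
      · intro n _ m _ h
        simp only [hF, hsi] at h
        omega
      · intro n hn
        rw [hS1, mem_filter] at hn
        obtain ⟨hnS, -, -, hp1, hp2⟩ := hn
        obtain ⟨-, h16, h2, -⟩ := hmem n hnS
        have f1 := hF i n
        have f2 := hF j n
        rw [hsi, hi] at f1
        rw [hsj, hj] at f2
        refine ⟨hp1, hp2, ?_, ?_, ?_⟩
        · omega
        · omega
        · omega
  have hc2 : ∀ z, ((S2 z).card : ℝ) ≤ A := by
    rintro ⟨i, j⟩
    refine le_trans ?_ (hno2 i j).le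
    rw [Nat.cast_le]
    have e1 := hR' j
    rw [abs_le] at e1
    refine gaps_of _ (fun n : ℕ => (N : ℤ) + n + s - 2 * y j) ?_ ?_ ?_
    · intro n _ m _ h
      omega
    · intro n hn
      rw [hS2, mem_filter] at hn
      obtain ⟨-, h16, h2, -⟩ := hmem n hn.1
      rw [hs]
      push_cast
      omega
    · intro n hn
      rw [hS2, mem_filter] at hn
      obtain ⟨-, m, hm1, hm2⟩ := hn
      refine ⟨m, hm1, ?_⟩
      rw [hm2]
      ring
  have hc3 : ∀ z, ((S3 z).card : ℝ) ≤ A := by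
    rintro ⟨i, j⟩
    refine le_trans ?_ (hno2 i j).le
    rw [Nat.cast_le]
    have e1 := hR' j
    rw [abs_le] at e1
    refine gaps_of _ (fun n : ℕ => (N : ℤ) - n + t - 2 * y j) ?_ ?_ ?_
    · intro n _ m _ h
      omega
    · intro n hn
      rw [hS3, mem_filter] at hn
      obtain ⟨-, h16, h2, -⟩ := hmem n hn.1
      rw [ht]
      push_cast
      omega
    · intro n hn
      rw [hS3, mem_filter] at hn
      obtain ⟨-, m, hm1, hm2⟩ := hn
      refine ⟨m, hm1, ?_⟩
      rw [hm2]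
      ring
  -- the sum
  have htot : (S.card : ℝ) ≤ ((4 * K) * (4 * K) + (K * K + K * K) : ℕ) * A := by
    have h1 : S.card ≤ ∑ z, (S1 z).card + (∑ z, (S2 z).card + ∑ z, (S3 z).card) := by
      refine (card_le_card hcov).trans ((card_union_le _ _).trans ?_)
      refine Nat.add_le_add card_biUnion_le ((card_union_le _ _).trans ?_)
      exact Nat.add_le_add card_biUnion_le card_biUnion_le
    have h2 : (S.card : ℝ) ≤ ∑ z, ((S1 z).card : ℝ) + (∑ z, ((S2 z).card : ℝ) + ∑ z, ((S3 z).card : ℝ)) := by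
      exact_mod_cast h1
    have g1 : ∑ z, ((S1 z).card : ℝ) ≤ ((4 * K) * (4 * K) : ℕ) * A := by
      refine (sum_le_sum fun z _ => hc1 z).trans (le_of_eq ?_)
      rw [sum_const, card_univ, Fintype.card_prod, Fintype.card_fin, nsmul_eq_mul]
    have g2 : ∑ z, ((S2 z).card : ℝ) ≤ (K * K : ℕ) * A := by
      refine (sum_le_sum fun z _ => hc2 z).trans (le_of_eq ?_)
      rw [sum_const, card_univ, Fintype.card_prod, Fintype.card_fin, nsmul_eq_mul]
    have g3 : ∑ z, ((S3 z).card : ℝ) ≤ (K * K : ℕ) * A := by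
      refine (sum_le_sum fun z _ => hc3 z).trans (le_of_eq ?_)
      rw [sum_const, card_univ, Fintype.card_prod, Fintype.card_fin, nsmul_eq_mul]
    have g4 : (((4 * K) * (4 * K) + (K * K + K * K) : ℕ) : ℝ) * A =
        ((4 * K) * (4 * K) : ℕ) * A + ((K * K : ℕ) * A + (K * K : ℕ) * A) := by
      push_cast
      ring
    rw [g4]
    linarith
  have hfin : (N : ℝ) ^ (1 - η / 2) = (N : ℝ) ^ (η / 2) * A := by
    rw [hA, ← Real.rpow_add hN0]
    congr 1
    ring
  rw [hfin] at hbig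
  have h9 := mul_lt_mul_of_pos_right hT hA0
  linarith

end Pool.Agent.H35_GD
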