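import Pool.Agent.H35_GD.Core
import Pool.Agent.TH880.GPe

/-! The uniform dichotomy for all large `N`, for windows, and its limit form. -/

set_option autoImplicit false

namespace Pool.Agent.H35_GD

open Finset Filter Topology
open Pool.Agent.W25.UN (Fm uB wB)
open Pool.Agent.H410R2 (WW)
open Pool.Agent.W25.UB
open Pool.Agent.TH880
open Pool.Agent.TH880.GP (clas shf slope_pm clas_fib shf_ne large_prime one_class exists_u)

/-- the dichotomy for sumsets -/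
theorem core (hV : ThmV) : ∃ K : ℕ, 1 ≤ K ∧ ∀ X Y : Finset ℤ, K ≤ X.card → K ≤ Y.card →
    (∀ x ∈ X, ∀ y ∈ Y, 0 < x + y) → ∃ C : ℕ, ∀ η : ℝ, 0 < η → ∀ᶠ N : ℕ in atTop,
    Near C η N ∨ ∃ x ∈ X, ∃ y ∈ Y, (N : ℝ) ^ (1 - η) ≤ gaps (x + y) (2 * N) := by
  classical
  obtain ⟨K, hK, hV⟩ := hV
  obtain ⟨P, hP⟩ : ∃ P : ℕ, P = (4 * K + 1).factorial := ⟨_, rfl⟩
  have hP0 : 0 < P := by rw [hP]; exact Nat.factorial_pos _
  refine ⟨P * K, Nat.mul_pos hP0 (by omega), ?_⟩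
  intro X Y hX hY hpos
  obtain ⟨a, x, hxi, hxX, hxa⟩ := one_class P K hP0 X hX
  obtain ⟨b, y, hyi, hyY, hyb⟩ := one_class P K hP0 Y hY
  have hxy : ∀ i j, 0 < x i + y j := fun i j => hpos _ (hxX i) _ (hyY j)
  obtain ⟨u, hu⟩ := exists_u (4 * K + 1) (2 * (a + b)) (dvd_mul_right _ _)
  obtain ⟨R, hR, hR'⟩ : ∃ R : ℕ, (∀ i, |2 * x i| ≤ (R : ℤ)) ∧ ∀ j, |2 * y j| ≤ (R : ℤ) := by
    refine ⟨∑ i, (2 * x i).natAbs + ∑ j, (2 * y j).natAbs, fun i => ?_, fun j => ?_⟩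
    · rw [Int.abs_eq_natAbs]
      have h1 := Finset.single_le_sum (f := fun i => (2 * x i).natAbs) (fun _ _ => Nat.zero_le _)
        (mem_univ i)
      exact_mod_cast h1.trans (Nat.le_add_right _ _)
    · rw [Int.abs_eq_natAbs]
      have h1 := Finset.single_le_sum (f := fun j => (2 * y j).natAbs) (fun _ _ => Nat.zero_le _)
        (mem_univ j)
      exact_mod_cast h1.trans (Nat.le_add_left _ _)
  obtain ⟨H, hH⟩ : ∃ H : Finset ℤ, H = univ.image (fun i => 2 * x i) ∪ univ.image (fun j => -2 * y j) :=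
    ⟨_, rfl⟩
  obtain ⟨M, w, hM, hMB, hMH, hMT⟩ := isolate H (4 * K + 1) (u - 2 * a) (by
    intro p hp hpB z hz hd
    obtain ⟨hu1, hu2⟩ := hu p hp hpB
    have hpP : (p : ℤ) ∣ P := by
      rw [hP]
      exact_mod_cast hp.dvd_factorial.2 hpB
    rw [hH, mem_union, mem_image, mem_image] at hz
    rcases hz with ⟨i, -, hi⟩ | ⟨j, -, hj⟩
    · apply hu1
      have h1 := dvd_sub hd ((hpP.trans (hxa i)).mul_left 2)
      have e : u - 2 * a + z - 2 * (x i - a) = u := by rw [← hi]; ring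
      rwa [e] at h1
    · apply hu2
      have h1 := dvd_add hd ((hpP.trans (hyb j)).mul_left 2)
      have e : u - 2 * a + z + 2 * (y j - b) = u - 2 * (a + b) := by rw [← hj]; ring
      rwa [e] at h1)
    ((Icc (-(R : ℤ)) R).filter (fun t => t ∉ H)) (fun t ht => (mem_filter.1 ht).2)
  have hsys : ∀ ρ : ℕ, _ := fun ρ => hV (GP.slope (K := K)) (shf x y (w - 1 - ρ) (w + 1 - ρ)) clas
    (clas_fib K) slope_pm (shf_ne x y hxi hyi hxy _ _)
  choose D₀ hD₀ using hsys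
  refine ⟨w.natAbs + M + R, fun η hη => ?_⟩
  have hev : ∀ᶠ N : ℕ in atTop, ∀ ρ ∈ range M, ∀ v : ℕ,
      CopAt (GP.slope (K := K)) (shf x y (w - 1 - ρ) (w + 1 - ρ)) (M + (range M).sup D₀) N v →
      (N : ℝ) ^ (1 - η / 2) ≤ (((Icc 1 N).filter (fun n : ℕ =>
        n ≡ v [MOD (WW (M + (range M).sup D₀))] ∧
        (N : ℝ) / 16 ≤ n ∧ (n : ℝ) ≤ N / 2 ∧
        2 ≤ (univ.filter (fun g : Fin 4 => ∃ i, clas i = g ∧
          (Fm GP.slope (shf x y (w - 1 - ρ) (w + 1 - ρ)) N i n).toNat.Prime)).card)).card : ℝ) := by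
    rw [Filter.eventually_all_finset]
    intro ρ hρ
    exact hD₀ ρ (M + (range M).sup D₀) ((le_sup (f := D₀) hρ).trans (Nat.le_add_left _ _)) (η / 2)
      (by linarith)
  filter_upwards [hev, eventually_ge_atTop (64 * (w.natAbs + M + R + 1)),
    ((tendsto_rpow_atTop (show 0 < η / 2 by linarith)).comp
      tendsto_natCast_atTop_atTop).eventually_gt_atTop
      (((4 * K) * (4 * K) + (K * K + K * K) : ℕ) : ℝ)] with N h1 h2 h3
  have hρ : N % M < M := Nat.mod_lt _ hM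
  rcases at_N x y hxy R M w hM hR hR' hMB
    (fun p hp hpM i => hMH p hp hpM _ (by
      rw [hH, mem_union]
      exact Or.inl (mem_image_of_mem (fun i => 2 * x i) (mem_univ i))))
    (fun p hp hpM j => hMH p hp hpM _ (by
      rw [hH, mem_union]
      exact Or.inr (mem_image_of_mem (fun j => -2 * y j) (mem_univ j))))
    (by
      intro t ht h4 h5
      apply hMT
      rw [mem_filter, mem_Icc]
      rw [abs_le] at ht
      refine ⟨ht, fun h6 => ?_⟩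
      rw [hH, mem_union, mem_image, mem_image] at h6
      rcases h6 with ⟨i, -, hi⟩ | ⟨j, -, hj⟩
      · exact h4 i hi.symm
      · exact h5 j hj.symm)
    (M + (range M).sup D₀) (Nat.le_add_right _ _) N (N % M) hρ (by
      have := Int.emod_add_mul_ediv (N : ℤ) M
      refine ⟨(N : ℤ) / M, ?_⟩
      push_cast
      linarith) h2 η h3 (h1 _ (mem_range.2 hρ)) with h | ⟨i, j, h⟩
  · exact Or.inl h
  · exact Or.inr ⟨x i, hxX i, y j, hyY j, h⟩

theorem Near.mono {C C' : ℕ} {η : ℝ} {N : ℕ} (h : Near C η N) (hC : C ≤ C') : Near C' η N := by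
  obtain ⟨n, h1, h2⟩ := h
  exact ⟨n, h1.trans (by exact_mod_cast hC), h2⟩

theorem Near.mono_eta {C : ℕ} {η η' : ℝ} {N : ℕ} (h : Near C η N) (hη : η ≤ η') (hN : 1 ≤ N) :
    Near C η' N := by
  obtain ⟨n, h1, h2⟩ := h
  refine ⟨n, h1, le_trans ?_ h2⟩
  exact Real.rpow_le_rpow_of_exponent_le (by exact_mod_cast hN) (by linarith)

/-- the property of `core` -/
def Dich (K : ℕ) : Prop := ∀ X Y : Finset ℤ, K ≤ X.card → K ≤ Y.card →
    (∀ x ∈ X, ∀ y ∈ Y, 0 < x + y) → ∃ C : ℕ, ∀ η : ℝ, 0 < η → ∀ᶠ N : ℕ in atTop,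
    Near C η N ∨ ∃ x ∈ X, ∃ y ∈ Y, (N : ℝ) ^ (1 - η) ≤ gaps (x + y) (2 * N)

/-- all sumsets below `L` at the same time -/
theorem uniform {K : ℕ} (hK : 1 ≤ K) (h : Dich K) (L : ℕ) :
    ∃ C : ℕ, ∀ η : ℝ, 0 < η → ∀ᶠ N : ℕ in atTop, Near C η N ∨
      ∀ X Y : Finset ℤ, K ≤ X.card → K ≤ Y.card → ∃ x ∈ X, ∃ y ∈ Y,
        ¬ (0 < x + y ∧ x + y ≤ L ∧ (gaps (x + y) (2 * N) : ℝ) < (N : ℝ) ^ (1 - η)) := by
  obtain ⟨F, hF⟩ : ∃ F : Finset (Finset ℤ × Finset ℤ),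
      F = ((Icc (0 : ℤ) L).powerset ×ˢ (Icc (0 : ℤ) L).powerset).filter (fun z =>
        K ≤ z.1.card ∧ K ≤ z.2.card ∧ ∀ x ∈ z.1, ∀ y ∈ z.2, 0 < x + y) := ⟨_, rfl⟩
  have h1 : ∀ z : Finset ℤ × Finset ℤ, ∃ C : ℕ, z ∈ F → ∀ η : ℝ, 0 < η → ∀ᶠ N : ℕ in atTop,
      Near C η N ∨ ∃ x ∈ z.1, ∃ y ∈ z.2, (N : ℝ) ^ (1 - η) ≤ gaps (x + y) (2 * N) := by
    intro z
    by_cases hz : z ∈ F
    · rw [hF, mem_filter] at hz
      obtain ⟨C, hC⟩ := h z.1 z.2 hz.2.1 hz.2.2.1 hz.2.2.2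
      exact ⟨C, fun _ => hC⟩
    · exact ⟨0, fun hz' => absurd hz' hz⟩
  choose C hC using h1
  refine ⟨F.sup C, fun η hη => ?_⟩
  have hev : ∀ᶠ N : ℕ in atTop, ∀ z ∈ F, Near (C z) η N ∨
      ∃ x ∈ z.1, ∃ y ∈ z.2, (N : ℝ) ^ (1 - η) ≤ gaps (x + y) (2 * N) := by
    rw [Filter.eventually_all_finset]
    intro z hz
    exact hC z hz η hη
  filter_upwards [hev] with N hN
  by_cases hnear : Near (F.sup C) η N
  · exact Or.inl hnear
  right
  intro X Y hX hY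
  by_contra hcon
  push Not at hcon
  have hXne : X.Nonempty := by
    rw [← card_pos]; omega
  have hYne : Y.Nonempty := by
    rw [← card_pos]; omega
  obtain ⟨m, hm, hmin⟩ : ∃ m ∈ X, ∀ x ∈ X, m ≤ x := ⟨X.min' hXne, X.min'_mem hXne,
    fun x hx => X.min'_le x hx⟩
  have hz : (X.image (fun x => x - m), Y.image (fun y => y + m)) ∈ F := by
    rw [hF, mem_filter, mem_product, mem_powerset, mem_powerset]
    refine ⟨⟨?_, ?_⟩, ?_, ?_, ?_⟩
    · intro x' hx'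
      obtain ⟨x, hx, rfl⟩ := mem_image.1 hx'
      obtain ⟨y, hy⟩ := hYne
      obtain ⟨h3, h4, -⟩ := hcon x hx y hy
      obtain ⟨h5, h6, -⟩ := hcon m hm y hy
      have h7 := hmin x hx
      rw [mem_Icc]
      constructor <;> omega
    · intro y' hy'
      obtain ⟨y, hy, rfl⟩ := mem_image.1 hy'
      obtain ⟨h3, h4, -⟩ := hcon m hm y hy
      rw [mem_Icc]
      constructor <;> omega
    · simp only
      rw [card_image_of_injective _ (sub_left_injective)]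
      exact hX
    · simp only
      rw [card_image_of_injective _ (add_left_injective m)]
      exact hY
    · intro x' hx' y' hy'
      obtain ⟨x, hx, rfl⟩ := mem_image.1 hx'
      obtain ⟨y, hy, rfl⟩ := mem_image.1 hy'
      obtain ⟨h3, h4, -⟩ := hcon x hx y hy
      omega
  rcases hN _ hz with h3 | ⟨x', hx', y', hy', h3⟩
  · exact hnear (h3.mono (le_sup (f := C) hz))
  · obtain ⟨x, hx, rfl⟩ := mem_image.1 hx'
    obtain ⟨y, hy, rfl⟩ := mem_image.1 hy'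
    obtain ⟨-, -, h4⟩ := hcon x hx y hy
    have e : x - m + (y + m) = x + y := by ring
    rw [e] at h3
    linarith

/-- sets without sumsets are thin in all windows -/
theorem thin {K : ℕ} (hK : 1 ≤ K) (E : Set ℕ)
    (h : ∀ X Y : Finset ℤ, K ≤ X.card → K ≤ Y.card → ∃ x ∈ X, ∃ y ∈ Y, ∀ k ∈ E, (k : ℤ) ≠ x + y)
    (u L : ℕ) (hL : 1 ≤ L) :
    ({k : ℕ | k ∈ E ∧ u < k ∧ k ≤ u + L}.ncard : ℝ) ≤ 8 * K * (L : ℝ) ^ (1 - 1 / (K : ℝ)) := by
  classical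
  have hfin : {k : ℕ | k ∈ E ∧ u < k ∧ k ≤ u + L}.Finite := by
    apply (Set.finite_Iic (u + L)).subset
    rintro k ⟨-, -, h3⟩
    exact h3
  rw [Set.ncard_eq_toFinset_card _ hfin]
  have h2 := Pool.Agent.TH880.GP.kst K hK {z : ℤ | ∃ k ∈ E, (k : ℤ) = z} (by
      intro X Y hX hY
      obtain ⟨x, hx, y, hy, h3⟩ := h X Y hX hY
      exact ⟨x, hx, y, hy, fun ⟨k, hk, h4⟩ => h3 k hk h4⟩) (u : ℤ) L hL
    (hfin.toFinset.map ⟨fun k : ℕ => (k : ℤ), Nat.cast_injective⟩) (by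
      intro z hz
      rw [Finset.mem_map] at hz
      obtain ⟨k, hk, rfl⟩ := hz
      rw [Set.Finite.mem_toFinset] at hk
      obtain ⟨h3, h4, h5⟩ := hk
      have h4' : (u : ℤ) < (k : ℤ) := by exact_mod_cast h4
      have h5' : (k : ℤ) ≤ (u : ℤ) + L := by exact_mod_cast h5
      exact ⟨⟨k, h3, rfl⟩, h4', h5'⟩)
  rwa [card_map] at h2

/-- for every `η > 0` there are arbitrarily large `X` with at least `X ^ (1 - η)` pairs of consecutive
primes up to `X` with the difference `2 k` -/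
def Many (k : ℤ) : Prop := ∀ η : ℝ, 0 < η → ∃ᶠ X : ℕ in atTop, (X : ℝ) ^ (1 - η) ≤ (gaps k X : ℝ)

theorem pow_compare {η η' : ℝ} (h : η < η') : ∀ᶠ N : ℕ in atTop,
    ((2 * N : ℕ) : ℝ) ^ (1 - η') ≤ (N : ℝ) ^ (1 - η) := by
  filter_upwards [((tendsto_rpow_atTop (show 0 < η' - η by linarith)).comp
      tendsto_natCast_atTop_atTop).eventually_ge_atTop ((2 : ℝ) ^ (1 - η')),
    eventually_gt_atTop 0] with N h1 h2
  have hN : (0 : ℝ) < N := by exact_mod_cast h2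
  simp only [Function.comp] at h1
  push_cast
  rw [Real.mul_rpow (by norm_num) hN.le]
  calc (2 : ℝ) ^ (1 - η') * (N : ℝ) ^ (1 - η') ≤ (N : ℝ) ^ (η' - η) * (N : ℝ) ^ (1 - η') :=
        mul_le_mul_of_nonneg_right h1 (Real.rpow_nonneg hN.le _)
    _ = (N : ℝ) ^ (1 - η) := by
        rw [← Real.rpow_add hN]
        congr 1
        ring

theorem limit_sets {K : ℕ} (h : Dich K)
    (hno : ¬ ∃ C : ℕ, ∀ η : ℝ, 0 < η → ∀ᶠ N : ℕ in atTop, Near C η N)
    (X Y : Finset ℤ) (hX : K ≤ X.card) (hY : K ≤ Y.card) (hpos : ∀ x ∈ X, ∀ y ∈ Y, 0 < x + y) :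
    ∃ x ∈ X, ∃ y ∈ Y, Many (x + y) := by
  classical
  obtain ⟨C, hC⟩ := h X Y hX hY hpos
  push Not at hno
  obtain ⟨η₀, hη₀, hfr⟩ := hno C
  by_contra hcon
  push Not at hcon
  unfold Many at hcon
  push Not at hcon
  choose! e he1 he2 using hcon
  obtain ⟨η, hη, hη1, hη2⟩ : ∃ η : ℝ, 0 < η ∧ η ≤ η₀ ∧ ∀ x ∈ X, ∀ y ∈ Y, η < e x y := by
    by_cases hne : (X ×ˢ Y).Nonempty
    · obtain ⟨z, hz, hmin⟩ := Finset.exists_min_image (X ×ˢ Y) (fun z => e z.1 z.2) hne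
      rw [mem_product] at hz
      have h1 := he1 z.1 hz.1 z.2 hz.2
      refine ⟨min η₀ (e z.1 z.2 / 2), lt_min hη₀ (by linarith), min_le_left _ _, ?_⟩
      intro x hx y hy
      have h2 := hmin (x, y) (mem_product.2 ⟨hx, hy⟩)
      simp only at h2
      have h3 := min_le_right η₀ (e z.1 z.2 / 2)
      linarith
    · refine ⟨η₀, hη₀, le_rfl, fun x hx y hy => ?_⟩
      exact absurd ⟨(x, y), mem_product.2 ⟨hx, hy⟩⟩ hne
  have hev1 : ∀ᶠ N : ℕ in atTop, ∀ z ∈ X ×ˢ Y,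
      (gaps (z.1 + z.2) (2 * N) : ℝ) < (N : ℝ) ^ (1 - η) := by
    rw [Filter.eventually_all_finset]
    rintro ⟨x, y⟩ hz
    rw [mem_product] at hz
    have h1 := he2 x hz.1 y hz.2
    have ht : Tendsto (fun N : ℕ => 2 * N) atTop atTop :=
      tendsto_atTop_mono (fun N => Nat.le_mul_of_pos_left _ (by norm_num)) tendsto_id
    filter_upwards [ht.eventually h1, pow_compare (hη2 x hz.1 y hz.2)] with N h2 h3
    exact lt_of_lt_of_le h2 h3
  obtain ⟨N, hN1, hN2, hN3, hN4⟩ := (hfr.and_eventually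
    ((hC η hη).and (hev1.and (eventually_ge_atTop 1)))).exists
  rcases hN2 with h1 | ⟨x, hx, y, hy, h1⟩
  · exact hN1 (h1.mono_eta hη1 hN4)
  · have h2 := hN3 (x, y) (mem_product.2 ⟨hx, hy⟩)
    simp only at h2
    linarith

end Pool.Agent.H35_GD
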