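import Mathlib

/-! Isolation of prescribed positions by congruences, and consecutive primes. -/

set_option autoImplicit false

namespace Pool.Agent.H35_GD

open Finset

/-- a residue class `w` modulo `M` for which the positions of `H` are prime to `M`, and all the
positions of `T`, outside `H`, are not -/
theorem isolate (H : Finset ℤ) (B : ℕ) (u : ℤ) (hu : ∀ p : ℕ, p.Prime → p ≤ B → ∀ z ∈ H, ¬ (p : ℤ) ∣ u + z)
    (T : Finset ℤ) : (∀ t ∈ T, t ∉ H) → ∃ (M : ℕ) (w : ℤ), 0 < M ∧
      (∀ p : ℕ, p.Prime → p ≤ B → p ∣ M) ∧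
      (∀ p : ℕ, p.Prime → p ∣ M → ∀ z ∈ H, ¬ (p : ℤ) ∣ w + z) ∧
      ∀ t ∈ T, ∃ p : ℕ, p.Prime ∧ p ∣ M ∧ (p : ℤ) ∣ w + t := by
  classical
  induction T using Finset.induction with
  | empty =>
    intro _
    refine ⟨B.factorial, u, Nat.factorial_pos B, fun p hp hpB => ?_, fun p hp hpB z hz => ?_, by simp⟩
    · exact hp.dvd_factorial.2 hpB
    · exact hu p hp (hp.dvd_factorial.1 hpB) z hz
  | insert t T ht ih =>
    intro hT
    obtain ⟨M, w, hM, h1, h2, h3⟩ := ih (fun t' ht' => hT t' (mem_insert_of_mem ht'))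
    have htH := hT t (mem_insert_self t T)
    -- a large prime
    obtain ⟨R, hR⟩ : ∃ R : ℕ, ∀ z ∈ H, (z - t).natAbs ≤ R :=
      ⟨H.sup (fun z => (z - t).natAbs), fun z hz => le_sup (f := fun z : ℤ => (z - t).natAbs) hz⟩
    obtain ⟨p, hpM, hp⟩ := Nat.exists_infinite_primes (M + R + 1)
    have hcop : Nat.Coprime M p := by
      rw [Nat.coprime_comm, hp.coprime_iff_not_dvd]
      intro hd
      have := Nat.le_of_dvd hM hd
      omega
    have hcopZ : IsCoprime (M : ℤ) (p : ℤ) := Nat.isCoprime_iff_coprime.2 hcop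
    obtain ⟨a, b, hab⟩ := hcopZ
    -- w' ≡ w mod M, w' ≡ -t mod p
    obtain ⟨w', hw'⟩ : ∃ w' : ℤ, w' = w * (b * p) + (-t) * (a * M) := ⟨_, rfl⟩
    have hwM : (M : ℤ) ∣ w' - w := by
      refine ⟨a * (-t - w), ?_⟩
      rw [hw']
      linear_combination (w) * hab
    have hwp : (p : ℤ) ∣ w' + t := by
      refine ⟨b * (w + t), ?_⟩
      rw [hw']
      linear_combination (-t) * hab
    refine ⟨M * p, w', Nat.mul_pos hM hp.pos, fun q hq hqB => (h1 q hq hqB).mul_right _, ?_, ?_⟩
    · intro q hq hqM z hz hd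
      rcases (Nat.Prime.dvd_mul hq).1 hqM with h4 | h4
      · apply h2 q hq h4 z hz
        have h5 : (q : ℤ) ∣ w' - w := (Int.natCast_dvd_natCast.2 h4).trans hwM
        have h6 := dvd_sub hd h5
        have e : w' + z - (w' - w) = w + z := by ring
        rwa [e] at h6
      · have h5 : q = p := (Nat.prime_dvd_prime_iff_eq hq hp).1 h4
        subst h5
        have h6 := dvd_sub hd hwp
        have e : w' + z - (w' + t) = z - t := by ring
        rw [e] at h6
        have h7 : z - t ≠ 0 := fun h => htH (by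
          have : z = t := by omega
          rw [← this]; exact hz)
        have h8 := Int.natAbs_dvd_natAbs.2 h6
        rw [Int.natAbs_natCast] at h8
        have h9 := Nat.le_of_dvd (Int.natAbs_pos.2 h7) h8
        have h10 := hR z hz
        omega
    · intro t' ht'
      rcases mem_insert.1 ht' with h4 | h4
      · rw [h4]
        exact ⟨p, hp, dvd_mul_left _ _, hwp⟩
      · obtain ⟨q, hq, hqM, hqt⟩ := h3 t' h4
        refine ⟨q, hq, hqM.mul_right _, ?_⟩
        have h5 : (q : ℤ) ∣ w' - w := (Int.natCast_dvd_natCast.2 hqM).trans hwM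
        have h6 := dvd_add hqt h5
        have e : w + t' + (w' - w) = w' + t' := by ring
        rwa [e] at h6

/-- two primes without primes in between are consecutive -/
theorem nth_consec {P Q : ℕ} (hP : P.Prime) (hQ : Q.Prime) (hPQ : P < Q)
    (h : ∀ r : ℕ, r.Prime → P < r → Q ≤ r) :
    Nat.nth Nat.Prime (Nat.count Nat.Prime P) = P ∧
      Nat.nth Nat.Prime (Nat.count Nat.Prime P + 1) = Q := by
  refine ⟨Nat.nth_count hP, ?_⟩
  have h1 : Nat.count Nat.Prime Q = Nat.count Nat.Prime P + 1 := by
    have h2 : Nat.count Nat.Prime (P + 1) = Nat.count Nat.Prime P + 1 := by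
      rw [Nat.count_succ, if_pos hP]
    rw [← h2]
    apply le_antisymm
    · by_contra hcon
      push Not at hcon
      obtain ⟨r, hr1, hr2, hr3⟩ : ∃ r, P + 1 ≤ r ∧ r < Q ∧ r.Prime := by
        by_contra hno
        push Not at hno
        have h3 : Nat.count Nat.Prime Q = Nat.count Nat.Prime (P + 1) := by
          obtain ⟨d, hd⟩ : ∃ d, Q = P + 1 + d := ⟨Q - (P + 1), by omega⟩
          rw [hd, Nat.count_add]
          have h4 : Nat.count (fun k => Nat.Prime (P + 1 + k)) d = 0 := by
            rw [Nat.count_eq_card_filter_range, Finset.card_eq_zero, Finset.filter_eq_empty_iff]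
            intro k hk
            rw [Finset.mem_range] at hk
            exact hno _ (by omega) (by omega)
          rw [h4, add_zero]
        omega
      have := h r hr3 (by omega)
      omega
    · exact Nat.count_monotone _ hPQ
  rw [← h1]
  exact Nat.nth_count hQ

end Pool.Agent.H35_GD
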