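import Pool.Agent.H35_GD.Iso
import Pool.Agent.TH880.GPc

/-! The two kinds of outcomes: two consecutive primes with a prescribed kind of gap, or two primes with a
prescribed sum. -/

set_option autoImplicit false

namespace Pool.Agent.H35_GD

open Finset Filter Topology
open Pool.Agent.W25.UN (Fm uB wB)
open Pool.Agent.H410R2 (WW)
open Pool.Agent.W25.UB
open Pool.Agent.TH880.GP (slope clas shf slope_pm clas_fib shf_ne large_prime)

/-- the number of the pairs of primes `p > n > q` with `p + q = 2 n` -/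
noncomputable def reps (n : ℕ) : ℕ :=
  {z : ℕ × ℕ | z.1.Prime ∧ z.2.Prime ∧ z.1 + z.2 = 2 * n ∧ z.2 < n ∧ n < z.1}.ncard

/-- the number of `m` such that the `m`-th prime is at most `X` and the next prime is larger by `2 k` -/
noncomputable def gaps (k : ℤ) (X : ℕ) : ℕ :=
  {m : ℕ | Nat.nth Nat.Prime m ≤ X ∧
    (Nat.nth Nat.Prime (m + 1) : ℤ) = Nat.nth Nat.Prime m + 2 * k}.ncard

/-- there is `n` within `C` of `N` with at least `N ^ (1 - η)` representations of `2 n` -/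
def Near (C : ℕ) (η : ℝ) (N : ℕ) : Prop :=
  ∃ n : ℕ, |(n : ℤ) - N| ≤ C ∧ (N : ℝ) ^ (1 - η) ≤ (reps n : ℝ)

/-- consecutive primes near a base point -/
theorem side {K : ℕ} (x y : Fin K → ℤ) (hxy : ∀ i j, 0 < x i + y j) (b : ℤ) (M R : ℕ)
    (hR : ∀ i, |2 * x i| ≤ R) (hR' : ∀ j, |2 * y j| ≤ R) (hM : 0 < M) (hb : (M : ℤ) + R < b)
    (hblock : ∀ t : ℤ, |t| ≤ R → (∀ i, t ≠ 2 * x i) → (∀ j, t ≠ -2 * y j) →
      ∃ p : ℕ, p.Prime ∧ p ∣ M ∧ (p : ℤ) ∣ b + t)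
    (h0 : ∃ i, (b + 2 * x i).toNat.Prime) (h1 : ∃ j, (b + -2 * y j).toNat.Prime) :
    ∃ i j, ∃ m : ℕ, (Nat.nth Nat.Prime m : ℤ) = b - 2 * y j ∧
      (Nat.nth Nat.Prime (m + 1) : ℤ) = b + 2 * x i := by
  classical
  obtain ⟨i, hi, himin⟩ := Finset.exists_min_image
    (univ.filter (fun i => (b + 2 * x i).toNat.Prime)) x (by
      obtain ⟨i, hi⟩ := h0
      exact ⟨i, mem_filter.2 ⟨mem_univ _, hi⟩⟩)
  obtain ⟨j, hj, hjmin⟩ := Finset.exists_min_image
    (univ.filter (fun j => (b + -2 * y j).toNat.Prime)) y (by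
      obtain ⟨j, hj⟩ := h1
      exact ⟨j, mem_filter.2 ⟨mem_univ _, hj⟩⟩)
  rw [mem_filter] at hi hj
  have hip := hi.2
  have hjp := hj.2
  have e0 := hR i
  have e1 := hR' j
  rw [abs_le] at e0 e1
  have e2 := hxy i j
  obtain ⟨P, hP⟩ : ∃ P : ℕ, P = (b + -2 * y j).toNat := ⟨_, rfl⟩
  obtain ⟨Q, hQ⟩ : ∃ Q : ℕ, Q = (b + 2 * x i).toNat := ⟨_, rfl⟩
  rw [← hP] at hjp
  rw [← hQ] at hip
  have hMz : (0 : ℤ) < M := by exact_mod_cast hM
  have hPz : (P : ℤ) = b - 2 * y j := by omega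
  have hQz : (Q : ℤ) = b + 2 * x i := by omega
  have hPQ : P < Q := by omega
  obtain ⟨h2, h3⟩ := nth_consec hjp hip hPQ (by
    intro r hr hPr
    by_contra hcon
    push Not at hcon
    obtain ⟨t, ht⟩ : ∃ t : ℤ, (r : ℤ) = b + t := ⟨(r : ℤ) - b, by ring⟩
    have ht1 : -2 * y j < t := by omega
    have ht2 : t < 2 * x i := by omega
    have htR : |t| ≤ R := by
      rw [abs_le]
      constructor <;> omega
    by_cases c0 : ∃ i', t = 2 * x i'
    · obtain ⟨i', hi'⟩ := c0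
      have h4 := himin i' (mem_filter.2 ⟨mem_univ _, by
        rw [← hi', ← ht, Int.toNat_natCast]; exact hr⟩)
      omega
    by_cases c1 : ∃ j', t = -2 * y j'
    · obtain ⟨j', hj'⟩ := c1
      have h4 := hjmin j' (mem_filter.2 ⟨mem_univ _, by
        rw [← hj', ← ht, Int.toNat_natCast]; exact hr⟩)
      omega
    push Not at c0 c1
    obtain ⟨p, hp, hpM, hpt⟩ := hblock t htR c0 c1
    rw [← ht] at hpt
    have h4 : p = r := (Nat.prime_dvd_prime_iff_eq hp hr).1 (by exact_mod_cast hpt)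
    have h5 := Nat.le_of_dvd hM hpM
    omega)
  refine ⟨i, j, Nat.count Nat.Prime P, ?_, ?_⟩
  · rw [h2]; exact hPz
  · rw [h3]; exact hQz

theorem le_nth_prime (m : ℕ) : m ≤ Nat.nth Nat.Prime m :=
  (Nat.nth_strictMono Nat.infinite_setOf_prime).le_apply

theorem gaps_fin (k : ℤ) (X : ℕ) : {m : ℕ | Nat.nth Nat.Prime m ≤ X ∧
    (Nat.nth Nat.Prime (m + 1) : ℤ) = Nat.nth Nat.Prime m + 2 * k}.Finite := by
  apply (Set.finite_Iic X).subset
  rintro m ⟨h1, -⟩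
  exact (le_nth_prime m).trans h1

/-- many base points give many gaps -/
theorem gaps_of {k : ℤ} {X : ℕ} (S : Finset ℕ) (f : ℕ → ℤ) (hf : ∀ n ∈ S, ∀ n' ∈ S, f n = f n' → n = n')
    (hX : ∀ n ∈ S, f n ≤ X)
    (h : ∀ n ∈ S, ∃ m : ℕ, (Nat.nth Nat.Prime m : ℤ) = f n ∧
      (Nat.nth Nat.Prime (m + 1) : ℤ) = f n + 2 * k) : S.card ≤ gaps k X := by
  classical
  choose! m hm1 hm2 using h
  unfold gaps
  rw [← Set.ncard_coe_finset]
  refine Set.ncard_le_ncard_of_injOn m ?_ ?_ (gaps_fin k X)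
  · intro n hn
    have h1 := hm1 n hn
    have h2 := hm2 n hn
    have h3 := hX n hn
    refine ⟨?_, ?_⟩
    · have : ((Nat.nth Nat.Prime (m n) : ℕ) : ℤ) ≤ X := by rw [h1]; exact h3
      exact_mod_cast this
    · rw [h2, h1]
  · intro n hn n' hn' he
    apply hf n hn n' hn'
    rw [← hm1 n hn, ← hm1 n' hn', he]

theorem reps_fin (n : ℕ) :
    {z : ℕ × ℕ | z.1.Prime ∧ z.2.Prime ∧ z.1 + z.2 = 2 * n ∧ z.2 < n ∧ n < z.1}.Finite := by
  apply ((Set.finite_Iic (2 * n)).prod (Set.finite_Iic (2 * n))).subset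
  rintro ⟨a, b⟩ ⟨-, -, h, -, -⟩
  simp only at h
  rw [Set.mem_prod, Set.mem_Iic, Set.mem_Iic]
  constructor <;> simp only <;> omega

/-- many base points give many representations -/
theorem reps_of {n' : ℕ} (S : Finset ℕ) (f f' : ℕ → ℤ) (hf : ∀ n ∈ S, ∀ m ∈ S, f n = f m → n = m)
    (h : ∀ n ∈ S, (f n).toNat.Prime ∧ (f' n).toNat.Prime ∧ f n + f' n = 2 * n' ∧ f' n < n' ∧ n' < f n) :
    S.card ≤ reps n' := by
  classical
  have hpos : ∀ z : ℤ, z.toNat.Prime → 0 < z := by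
    intro z hz
    have := hz.pos
    omega
  unfold reps
  rw [← Set.ncard_coe_finset]
  refine Set.ncard_le_ncard_of_injOn (fun n => ((f n).toNat, (f' n).toNat)) ?_ ?_ (reps_fin n')
  · intro n hn
    obtain ⟨h1, h2, h3, h4, h5⟩ := h n hn
    have h6 := hpos _ h1
    have h7 := hpos _ h2
    refine ⟨h1, h2, ?_, ?_, ?_⟩
    · simp only; omega
    · simp only; omega
    · simp only; omega
  · intro n hn m hm he
    apply hf n hn m hm
    have h1 := congrArg Prod.fst he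
    simp only at h1
    have h6 := hpos _ (h n hn).1
    have h7 := hpos _ (h m hm).1
    omega

/-- the residue class for the sieve -/
theorem exists_v {k : ℕ} (α h : Fin k → ℤ) (D N M : ℕ)
    (H : ∀ p : ℕ, p.Prime → p ≤ D → ∃ r : ℕ, (p ∣ M → r = 1) ∧
      ∀ j, ¬ (p : ℤ) ∣ uB α j * r + wB h N j) :
    ∃ v : ℕ, CopAt α h D N v ∧ ∀ n : ℕ, n ≡ v [MOD WW D] → ∀ p : ℕ, p.Prime → p ≤ D → p ∣ M →
      (p : ℤ) ∣ (n : ℤ) - 1 := by
  classical
  have H' : ∀ p : ℕ, ∃ r : ℕ, p.Prime → p ≤ D → ((p ∣ M → r = 1) ∧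
      ∀ j, ¬ (p : ℤ) ∣ uB α j * r + wB h N j) := by
    intro p
    by_cases hp : p.Prime ∧ p ≤ D
    · obtain ⟨r, hr⟩ := H p hp.1 hp.2
      exact ⟨r, fun _ _ => hr⟩
    · exact ⟨0, fun h1 h2 => absurd ⟨h1, h2⟩ hp⟩
  choose r hr using H'
  obtain ⟨v, hv⟩ := Nat.chineseRemainderOfFinset r id ((Icc 1 D).filter Nat.Prime)
    (by
      intro p hp
      exact (mem_filter.1 hp).2.ne_zero)
    (by
      intro p hp q hq hpq
      have h1 := (mem_filter.1 (mem_coe.1 hp)).2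
      have h2 := (mem_filter.1 (mem_coe.1 hq)).2
      exact (Nat.coprime_primes h1 h2).2 hpq)
  have hW : ((WW D : ℕ) : ℤ) = ∏ p ∈ (Icc 1 D).filter Nat.Prime, (p : ℤ) := by
    unfold WW
    push_cast
    rfl
  have key : ∀ p : ℕ, p.Prime → p ≤ D → ∀ n : ℤ, n ≡ v [ZMOD (WW D)] → n ≡ (r p : ℤ) [ZMOD p] := by
    intro p hp hpD n hn
    have hmem : p ∈ (Icc 1 D).filter Nat.Prime := mem_filter.2 ⟨mem_Icc.2 ⟨hp.one_lt.le, hpD⟩, hp⟩
    have hpW : (p : ℤ) ∣ ((WW D : ℕ) : ℤ) := by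
      rw [hW]
      exact Finset.dvd_prod_of_mem (fun p : ℕ => (p : ℤ)) hmem
    have h1 : n ≡ v [ZMOD p] := hn.of_dvd hpW
    have h2 : (v : ℤ) ≡ (r p : ℕ) [ZMOD p] := by
      have := hv p hmem
      exact (Int.natCast_modEq_iff).2 this
    exact h1.trans h2
  refine ⟨v, fun j n hn => ?_, ?_⟩
  · rw [hW]
    apply IsCoprime.prod_right
    intro p hp
    have hpp := (mem_filter.1 hp).2
    have hpD := (mem_Icc.1 (mem_filter.1 hp).1).2
    have hpZ : Prime (p : ℤ) := Nat.prime_iff_prime_int.1 hpp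
    apply IsCoprime.symm
    rw [Prime.coprime_iff_not_dvd hpZ]
    intro hd
    apply (hr p hpp hpD).2 j
    have h3 := key p hpp hpD n hn
    have h4 : uB α j * n + wB h N j ≡ uB α j * (r p : ℤ) + wB h N j [ZMOD p] :=
      (h3.mul_left _).add_right _
    exact (Int.ModEq.dvd_iff h4).1 hd
  · intro n hn p hp hpD hpM
    have h1 : (n : ℤ) ≡ v [ZMOD (WW D)] := (Int.natCast_modEq_iff).2 hn
    have h2 := key p hp hpD n h1
    rw [(hr p hp hpD).1 hpM] at h2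
    exact (Int.modEq_iff_dvd.1 h2.symm)

end Pool.Agent.H35_GD
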